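import Pool.Agent.H815.QC.Stm

/-!
# Task QC-R8: the link lemma
-/

set_option autoImplicit false

namespace Pool.Agent.H411.QC

open Pool.Agent.Y110.FJ Pool.Agent.T2H65.GP Pool.Agent.H815.QC

/-- the integer Heisenberg group -/
@[ext] structure Hei : Type where
  x : ℤ
  y : ℤ
  z : ℤ

namespace Hei

instance : Mul Hei := ⟨fun p q => ⟨p.x + q.x, p.y + q.y, p.z + q.z + p.x * q.y⟩⟩
instance : One Hei := ⟨⟨0, 0, 0⟩⟩
instance : Inv Hei := ⟨fun p => ⟨-p.x, -p.y, -p.z + p.x * p.y⟩⟩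

@[simp] theorem mul_x (p q : Hei) : (p * q).x = p.x + q.x := rfl
@[simp] theorem mul_y (p q : Hei) : (p * q).y = p.y + q.y := rfl
@[simp] theorem mul_z (p q : Hei) : (p * q).z = p.z + q.z + p.x * q.y := rfl
@[simp] theorem one_x : (1 : Hei).x = 0 := rfl
@[simp] theorem one_y : (1 : Hei).y = 0 := rfl
@[simp] theorem one_z : (1 : Hei).z = 0 := rfl
@[simp] theorem inv_x (p : Hei) : (p⁻¹).x = -p.x := rfl
@[simp] theorem inv_y (p : Hei) : (p⁻¹).y = -p.y := rfl
@[simp] theorem inv_z (p : Hei) : (p⁻¹).z = -p.z + p.x * p.y := rfl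

instance : Group Hei where
  mul_assoc p q r := by
    ext <;> simp <;> ring
  one_mul p := by ext <;> simp
  mul_one p := by ext <;> simp
  inv_mul_cancel p := by ext <;> simp

/-- the first generator -/
def X : Multiplicative ℤ →* Hei where
  toFun k := ⟨Multiplicative.toAdd k, 0, 0⟩
  map_one' := rfl
  map_mul' k l := by ext <;> simp

/-- the second generator -/
def Y : Multiplicative ℤ →* Hei where
  toFun k := ⟨0, Multiplicative.toAdd k, 0⟩
  map_one' := rfl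
  map_mul' k l := by ext <;> simp

/-- the powers of the second generator -/
def HY : Subgroup Hei where
  carrier := {p | p.x = 0 ∧ p.z = 0}
  one_mem' := ⟨rfl, rfl⟩
  mul_mem' := by
    rintro p q ⟨h1, h2⟩ ⟨h3, h4⟩
    exact ⟨by rw [mul_x, h1, h3, add_zero], by rw [mul_z, h1, h2, h4]; ring⟩
  inv_mem' := by
    rintro p ⟨h1, h2⟩
    exact ⟨by rw [inv_x, h1, neg_zero], by rw [inv_z, h1, h2]; ring⟩

end Hei

open Classical in
/-- the homomorphism to the Heisenberg group -/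
noncomputable def hom {V : Type} (Λ : SimpleGraph V) (u s : V) (h : ¬ Λ.Adj u s) : P2 Λ →* Hei :=
  glift (fun v => if v = u then Hei.X else if v = s then Hei.Y else 1) (by
    intro v w hvw a b
    have hw : v ≠ w := hvw.ne
    by_cases hv : v = u
    · have h1 : w ≠ u := fun h1 => hw (hv.trans h1.symm)
      have h2 : w ≠ s := fun h2 => h (hv ▸ h2 ▸ hvw)
      rw [if_neg h1, if_neg h2, MonoidHom.one_apply, mul_one, one_mul]
    · rw [if_neg hv]
      by_cases hv' : v = s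
      · have h1 : w ≠ u := fun h1 => h (hv' ▸ h1 ▸ hvw.symm)
        have h2 : w ≠ s := fun h2 => hw (hv'.trans h2.symm)
        rw [if_neg h1, if_neg h2, MonoidHom.one_apply, mul_one, one_mul]
      · rw [if_neg hv', MonoidHom.one_apply, mul_one, one_mul])

theorem hom_u {V : Type} (Λ : SimpleGraph V) (u s : V) (h : ¬ Λ.Adj u s) (m : ℤ) :
    hom Λ u s h (gp Λ u m) = ⟨m, 0, 0⟩ := by
  unfold hom gp
  rw [glift_of, if_pos rfl]
  rfl

theorem hom_s {V : Type} (Λ : SimpleGraph V) (u s : V) (h : ¬ Λ.Adj u s) (hus : s ≠ u) (m : ℤ) :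
    hom Λ u s h (gp Λ s m) = ⟨0, m, 0⟩ := by
  unfold hom gp
  rw [glift_of, if_neg hus, if_pos rfl]
  rfl

theorem hom_std {V : Type} (Λ : SimpleGraph V) (u s : V) (h : ¬ Λ.Adj u s) (U : V → Prop)
    (hu : ¬ U u) : std Λ (B2 V) U ≤ Hei.HY.comap (hom Λ u s h) := by
  apply std_le
  rintro v hv _ ⟨k, rfl⟩
  rw [Subgroup.mem_comap]
  unfold hom
  rw [glift_of]
  have h1 : v ≠ u := fun h1 => hu (h1 ▸ hv)
  rw [if_neg h1]
  by_cases h2 : v = s
  · rw [if_pos h2]
    exact ⟨rfl, rfl⟩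
  · rw [if_neg h2, MonoidHom.one_apply]
    exact one_mem _

theorem gp_comm {V : Type} (Λ : SimpleGraph V) {u w : V} (h : Λ.Adj u w) (m k : ℤ) :
    gp Λ u m * gp Λ w k = gp Λ w k * gp Λ u m :=
  of_comm (Λ := Λ) (B := B2 V) h _ _

theorem conj_comm {V N : Type} [Group N] (Λ : SimpleGraph V) {β : N →* P2 Λ}
    (hβ : Function.Injective β) {b x y : P2 Λ} {a n : N} (ha : β a = b * x * b⁻¹)
    (hn : β n = b * y * b⁻¹) (hxy : x * y = y * x) : a * n = n * a := by
  apply hβ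
  rw [map_mul, map_mul, ha, hn]
  have h1 : b * x * b⁻¹ * (b * y * b⁻¹) = b * (x * y) * b⁻¹ := by group
  have h2 : b * y * b⁻¹ * (b * x * b⁻¹) = b * (y * x) * b⁻¹ := by group
  rw [h1, h2, hxy]

theorem R8_proof (hR4 : S_R4) : S_R8 := by
  intro V _ Λ N _ β hβ w m b c n U _ hn hU hind hcom u hwu
  by_contra hu
  by_cases hall : ∀ s, U s → Λ.Adj u s
  · exact hind u w hall (fun s hs => hU s hs) hwu.symm
  · push Not at hall
    obtain ⟨s, hs, hus⟩ := hall
    have hsu : s ≠ u := fun h => hu (h ▸ hs)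
    obtain ⟨M, hM, a, ha⟩ := hR4 V Λ N β hβ b u
    obtain ⟨M', hM', a', ha'⟩ := hR4 V Λ N β hβ b s
    have h1 : a * n = n * a := conj_comm Λ hβ.1 ha hn (gp_comm Λ hwu.symm M m)
    have h2 : a' * n = n * a' := conj_comm Λ hβ.1 ha' hn (gp_comm Λ (hU s hs).symm M' m)
    have h3 := hcom a a' h1 h2
    have h4 : c⁻¹ * β (a * a' * a⁻¹ * a'⁻¹) * c ∈ std Λ (B2 V) U := mem_pb.mp h3
    have h7 : β (a * a' * a⁻¹ * a'⁻¹) = b * gp Λ u M * b⁻¹ * (b * gp Λ s M' * b⁻¹) *
        (b * gp Λ u M * b⁻¹)⁻¹ * (b * gp Λ s M' * b⁻¹)⁻¹ := by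
      rw [← ha, ← ha', map_mul, map_mul, map_mul, map_inv, map_inv]
    rw [h7] at h4
    have h5 := (hom_std Λ u s hus U hu h4).2
    simp only [map_mul, map_inv, hom_u, hom_s Λ u s hus hsu, Hei.mul_x, Hei.mul_y, Hei.mul_z,
      Hei.inv_x, Hei.inv_y, Hei.inv_z] at h5
    have h6 : M * M' = 0 := by
      linear_combination h5
    rcases mul_eq_zero.mp h6 with h7 | h7
    · omega
    · omega

end Pool.Agent.H411.QC

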